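import Mathlib
import Pool.Agent.Q117.Fr.Hall

/-!
# Condition `(∗)` forces all elements to have prime power order
-/

set_option autoImplicit false

namespace Pool.Agent.Results.MP_9320d9_al.PrimePowerOrder

open Pool.Agent.Q117.Fr

universe u

/-- The number of the elements of order exactly `d`. -/
noncomputable def N (G : Type u) [Group G] (d : ℕ) : ℕ := Nat.card {g : G // orderOf g = d}

/-- Condition `(∗)`: for every divisor `d > 1` of `|G|` and every subgroup `H` of order prime
to `d`, the order of `H` divides the number of the elements of order `d`. -/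
def Star (G : Type u) [Group G] : Prop :=
  ∀ d : ℕ, 1 < d → d ∣ Nat.card G → ∀ H : Subgroup G, Nat.Coprime (Nat.card H) d →
    Nat.card H ∣ N G d

section

variable {G : Type u} [Group G] [Finite G]

theorem sol_eq_sum (k : ℕ) (hk : k ≠ 0) :
    sol G k = 1 + ∑ d ∈ k.divisors.erase 1, N G d := by
  classical
  have := Fintype.ofFinite G
  have h1 : sol G k = ∑ d ∈ k.divisors, N G d := by
    unfold sol N
    rw [Nat.subtype_card (Finset.univ.filter fun g : G => g ^ k = 1) (by simp)]
    have h2 : ∀ d, Nat.card {g : G // orderOf g = d} =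
        (Finset.univ.filter fun g : G => orderOf g = d).card := fun d =>
      Nat.subtype_card _ (by simp)
    simp only [h2]
    rw [← Finset.card_biUnion]
    · congr 1
      ext g
      simp only [Finset.mem_filter, Finset.mem_univ, true_and, Finset.mem_biUnion,
        Nat.mem_divisors]
      constructor
      · intro h
        exact ⟨orderOf g, ⟨orderOf_dvd_of_pow_eq_one h, hk⟩, rfl⟩
      · rintro ⟨d, ⟨h, _⟩, rfl⟩
        exact orderOf_dvd_iff_pow_eq_one.1 h
    · intro a _ b _ hab
      rw [Function.onFun, Finset.disjoint_left]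
      intro g hg hg'
      rw [Finset.mem_filter] at hg hg'
      exact hab (hg.2.symm.trans hg'.2)
  rw [h1, ← Finset.add_sum_erase _ _ (Nat.one_mem_divisors.2 hk)]
  congr 1
  unfold N
  rw [Nat.card_eq_one_iff_unique]
  constructor
  · constructor
    rintro ⟨a, ha⟩ ⟨b, hb⟩
    rw [orderOf_eq_one_iff] at ha hb
    exact Subtype.ext (ha.trans hb.symm)
  · exact ⟨⟨1, orderOf_one⟩⟩

/-- Under `(∗)`, for a factorization `|G| = k * l` into coprime factors, `k` divides the number of
the elements of order `d`, for each divisor `d > 1` of `l`. -/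
theorem dvd_N (h : Star G) {k l : ℕ} (hkl : Nat.Coprime k l) (hG : k * l = Nat.card G) {d : ℕ}
    (hd : 1 < d) (hdl : d ∣ l) : k ∣ N G d := by
  rw [Nat.dvd_iff_prime_pow_dvd_dvd]
  intro p a hp hpa
  have hf : Fact p.Prime := ⟨hp⟩
  obtain ⟨K, hK⟩ := Sylow.exists_subgroup_card_pow_prime (G := G) p (n := a)
    (hpa.trans ⟨l, hG.symm⟩)
  rw [← hK]
  apply h d hd (hdl.trans ⟨k, by rw [← hG]; ring⟩) K
  rw [hK]
  exact Nat.Coprime.coprime_dvd_left hpa (hkl.coprime_dvd_right hdl)

theorem sol_modEq (h : Star G) {k l : ℕ} (hkl : Nat.Coprime k l) (hG : k * l = Nat.card G) :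
    ∃ c, sol G l = 1 + k * c := by
  have hl : l ≠ 0 := by
    rintro rfl
    have := Nat.card_pos (α := G)
    omega
  obtain ⟨c, hc⟩ : k ∣ ∑ d ∈ l.divisors.erase 1, N G d := by
    apply Finset.dvd_sum
    intro d hd
    rw [Finset.mem_erase, Nat.mem_divisors] at hd
    obtain ⟨hd1, hdl, _⟩ := hd
    have hd0 : d ≠ 0 := by
      rintro rfl
      exact hl (Nat.eq_zero_of_zero_dvd hdl)
    exact dvd_N h hkl hG (by omega) hdl
  exact ⟨c, by rw [sol_eq_sum l hl, hc]⟩

/-- For a coprime factorization `|G| = k * l` every element satisfies `g ^ k = 1` or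
`g ^ l = 1`. -/
theorem dichotomy (h : Star G) {k l : ℕ} (hkl : Nat.Coprime k l) (hG : k * l = Nat.card G)
    (g : G) : g ^ k = 1 ∨ g ^ l = 1 := by
  classical
  have := Fintype.ofFinite G
  have hpos : 0 < Nat.card G := Nat.card_pos
  have hG' : l * k = Nat.card G := by rw [← hG]; ring
  obtain ⟨c, hc⟩ := sol_modEq h hkl hG
  obtain ⟨c', hc'⟩ := sol_modEq h hkl.symm hG'
  have hk : k ∣ sol G k := by
    have := frobenius hkl (Nat.card G) G le_rfl (by rw [hG])
    rwa [← hG, Nat.gcd_eq_right ⟨l, rfl⟩] at this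
  have hl : l ∣ sol G l := by
    have := frobenius hkl.symm (Nat.card G) G le_rfl (by rw [hG'])
    rwa [← hG', Nat.gcd_eq_right ⟨k, rfl⟩] at this
  -- the elements with `g ^ k = 1` or `g ^ l = 1`
  set A := Finset.univ.filter fun g : G => g ^ k = 1 with hA
  set B := Finset.univ.filter fun g : G => g ^ l = 1 with hB
  have hAc : A.card = sol G k := (Nat.subtype_card _ (by simp [hA])).symm
  have hBc : B.card = sol G l := (Nat.subtype_card _ (by simp [hB])).symm
  have hAB : (A ∩ B).card = 1 := by
    rw [Finset.card_eq_one]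
    refine ⟨1, ?_⟩
    ext g
    rw [Finset.mem_inter, Finset.mem_singleton, hA, hB, Finset.mem_filter, Finset.mem_filter]
    constructor
    · rintro ⟨⟨_, h1⟩, ⟨_, h2⟩⟩
      rw [← orderOf_eq_one_iff]
      exact Nat.eq_one_of_dvd_coprimes hkl (orderOf_dvd_of_pow_eq_one h1)
        (orderOf_dvd_of_pow_eq_one h2)
    · rintro rfl
      simp
  have hU := Finset.card_union_add_card_inter A B
  rw [hAB, hAc, hBc] at hU
  -- divisibility of the cardinality of the union
  have hd1 : k ∣ (A ∪ B).card := by
    have : (A ∪ B).card = sol G k + k * c := by omega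
    rw [this]
    exact dvd_add hk ⟨c, rfl⟩
  have hd2 : l ∣ (A ∪ B).card := by
    have : (A ∪ B).card = sol G l + l * c' := by omega
    rw [this]
    exact dvd_add hl ⟨c', rfl⟩
  have hd3 : Nat.card G ∣ (A ∪ B).card := by
    rw [← hG]
    exact hkl.mul_dvd_of_dvd_of_dvd hd1 hd2
  have hUpos : 0 < (A ∪ B).card := by
    have : 0 < (A ∩ B).card := by rw [hAB]; exact one_pos
    exact lt_of_lt_of_le this (Finset.card_le_card
      (Finset.inter_subset_left.trans Finset.subset_union_left))
  have hle := Nat.le_of_dvd hUpos hd3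
  have huniv : A ∪ B = Finset.univ := by
    apply Finset.eq_univ_of_card
    rw [← Nat.card_eq_fintype_card]
    refine le_antisymm ?_ hle
    rw [Nat.card_eq_fintype_card]
    exact Finset.card_le_univ _
  have hg : g ∈ A ∪ B := by rw [huniv]; exact Finset.mem_univ _
  rw [Finset.mem_union, hA, hB, Finset.mem_filter, Finset.mem_filter] at hg
  exact hg.imp (fun h => h.2) fun h => h.2

end

/-- If a finite group satisfies the condition `(∗)`, then each of its elements has prime power
order. -/
theorem result (G : Type u) [Group G] [Finite G] (h : Star G) (g : G) :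
    ∃ p k : ℕ, p.Prime ∧ orderOf g = p ^ k := by
  by_cases hg : g = 1
  · exact ⟨2, 0, Nat.prime_two, by rw [hg, orderOf_one, pow_zero]⟩
  · have h1 : orderOf g ≠ 1 := fun h1 => hg (orderOf_eq_one_iff.1 h1)
    obtain ⟨p, hp, hpd⟩ := Nat.exists_prime_and_dvd h1
    have hG : (p ^ (Nat.card G).factorization p) * (Nat.card G / p ^ (Nat.card G).factorization p)
        = Nat.card G := Nat.ordProj_mul_ordCompl_eq_self _ _
    have hcop : Nat.Coprime (p ^ (Nat.card G).factorization p)
        (Nat.card G / p ^ (Nat.card G).factorization p) :=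
      Nat.Coprime.pow_left _ (Nat.coprime_ordCompl hp Nat.card_pos.ne')
    rcases dichotomy h hcop hG g with h2 | h2
    · obtain ⟨k, _, hk⟩ := (Nat.dvd_prime_pow hp).1 (orderOf_dvd_of_pow_eq_one h2)
      exact ⟨p, k, hp, hk⟩
    · exfalso
      have h3 := hpd.trans (orderOf_dvd_of_pow_eq_one h2)
      exact Nat.not_dvd_ordCompl hp Nat.card_pos.ne' h3

end Pool.Agent.Results.MP_9320d9_al.PrimePowerOrder
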